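import Pool.Agent.helper81.EP.SpecC

/-!
# Project ep, module CC: the counting
-/

set_option autoImplicit false

open Finset
open scoped Real

noncomputable section

namespace Pool.Agent.EP

theorem CC_cop (l i : ℕ) (hl : l.Prime) (h5 : 5 ≤ l) : Nat.Coprime (l ^ i) 6 := by
  apply Nat.Coprime.pow_left
  rw [Nat.coprime_comm, show (6 : ℕ) = 2 * 3 by norm_num]
  have h2 : Nat.Coprime 2 l := (Nat.coprime_primes Nat.prime_two hl).2 (by omega)
  have h3 : Nat.Coprime 3 l := (Nat.coprime_primes Nat.prime_three hl).2 (by omega)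
  exact Nat.Coprime.mul_left h2 h3

theorem CC_In8 (r : ℕ) (hr : r ∈ In8) : 0 < r ∧ r ≤ 95 := by
  revert r
  decide

theorem CC_mod (d r c p A : ℕ) (hp : p % 24 = c) (h : (d * r * c + A) % 24 = 3) :
    (d * r * p + A) % 24 = 3 := by
  have h1 : d * r * p ≡ d * r * c [MOD 24] := by
    apply Nat.ModEq.mul_left
    rw [← hp]
    exact (Nat.mod_modEq p 24).symm
  have h2 : d * r * p + A ≡ d * r * c + A [MOD 24] := h1.add_right A
  rw [← h]
  exact h2

theorem CC (hCR : CR_stmt) (hCV : CV_stmt) (hCB : CB_stmt) (hCF : CF_stmt) : CC_stmt := by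
  classical
  intro b l i c z X hb hl hl5 hodd hz hc hX1 hX2
  have hA : 0 < 4 ^ b := pow_pos (by norm_num) b
  have hA16 : 16 ≤ 4 ^ b := by
    calc 16 = 4 ^ 2 := by norm_num
      _ ≤ 4 ^ b := Nat.pow_le_pow_right (by norm_num) hb
  obtain ⟨r, hr, hmod⟩ := hCR (l ^ i) c b (CC_cop l i hl hl5) hc hb
  obtain ⟨hr0, hr95⟩ := CC_In8 r hr
  have hd0 : 0 < l ^ i := pow_pos hl.pos i
  set P : Finset ℕ := {p ∈ Ioc z (2 * z) | p.Prime ∧ p % 24 = c} with hP
  have hmem : ∀ p ∈ P, z < p ∧ p ≤ 2 * z ∧ p.Prime ∧ p % 24 = c := by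
    intro p hp
    rw [hP, mem_filter, mem_Ioc] at hp
    exact ⟨hp.1.1, hp.1.2, hp.2.1, hp.2.2⟩
  let N : ℕ → ℕ := fun p => (l ^ i * r * p + 4 ^ b - 3) / 24
  have hN : ∀ p ∈ P, 24 * N p + 3 = l ^ i * r * p + 4 ^ b := by
    intro p hp
    have h1 := CC_mod (l ^ i) r c p (4 ^ b) (hmem p hp).2.2.2 hmod
    change 24 * ((l ^ i * r * p + 4 ^ b - 3) / 24) + 3 = l ^ i * r * p + 4 ^ b
    omega
  have hNX : ∀ p ∈ P, 24 * N p + 3 ≤ 24 * X := by
    intro p hp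
    rw [hN p hp]
    have h1 : l ^ i * r * p ≤ l ^ i * 95 * (2 * z) :=
      Nat.mul_le_mul (Nat.mul_le_mul_left _ hr95) (hmem p hp).2.1
    have h2 : l ^ i * 95 * (2 * z) = 190 * l ^ i * z := by ring
    omega
  have hinj : ∀ p ∈ P, ∀ q ∈ P, N p = N q → p = q := by
    intro p hp q hq h
    have h1 := hN p hp
    have h2 := hN q hq
    rw [h] at h1
    have h3 : l ^ i * r * p = l ^ i * r * q := by omega
    exact Nat.eq_of_mul_eq_mul_left (Nat.mul_pos hd0 hr0) h3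
  have hsplit : #P = #{p ∈ P | rs (4 ^ b) (N p) ≠ ∅} + #{p ∈ P | ¬ rs (4 ^ b) (N p) ≠ ∅} :=
    (card_filter_add_card_filter_not _).symm
  have h1 : #{p ∈ P | rs (4 ^ b) (N p) ≠ ∅} ≤ (Nat.sqrt (8 * X + 1) + 1) * (X / 4 ^ b + 1) := by
    refine le_trans ?_ (hCB (4 ^ b) X hA)
    refine card_le_card_of_injOn N ?_ ?_
    · intro p hp
      rw [mem_coe, mem_filter] at hp
      rw [mem_coe, mem_filter, mem_range]
      have := hNX p hp.1
      exact ⟨by omega, hp.2⟩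
    · intro p hp q hq h
      rw [mem_coe, mem_filter] at hp hq
      exact hinj p hp.1 q hq.1 h
  have h2 : #{p ∈ P | ¬ rs (4 ^ b) (N p) ≠ ∅} ≤ 4 * sE (4 ^ b * X) := by
    have hex : ∀ p : ℕ, ∃ s : ℕ, (p ∈ P ∧ ¬ rs (4 ^ b) (N p) ≠ ∅) →
        1 ≤ s ∧ s ≤ 4 ^ b * N p ∧ Even (Fintype.card (Nat.Partition s)) ∧ p ∣ 24 * s - 1 := by
      intro p
      by_cases hp : p ∈ P ∧ ¬ rs (4 ^ b) (N p) ≠ ∅
      · have hm := hmem p hp.1
        obtain ⟨s, hs⟩ := hCV b l i r p (N p) hb hl hl5 hr hm.2.2.1 (lt_of_le_of_lt hz hm.1)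
          (hN p hp.1) hodd (not_not.1 hp.2)
        exact ⟨s, fun _ => hs⟩
      · exact ⟨0, fun h => absurd h hp⟩
    choose S hS using hex
    have hfib : ∀ a ∈ ({p ∈ P | ¬ rs (4 ^ b) (N p) ≠ ∅}).image S,
        #{p ∈ {p ∈ P | ¬ rs (4 ^ b) (N p) ≠ ∅} | S p = a} ≤ 4 := by
      intro a ha
      rw [mem_image] at ha
      obtain ⟨p, hp, rfl⟩ := ha
      rw [mem_filter] at hp
      obtain ⟨hs1, hs2, -, -⟩ := hS p hp
      have hlt : 24 * S p < (4 ^ b) ^ 5 := by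
        have h3 := hNX p hp.1
        have h4 : 24 * S p ≤ 4 ^ b * (24 * X) := by
          calc 24 * S p ≤ 24 * (4 ^ b * N p) := Nat.mul_le_mul_left _ hs2
            _ = 4 ^ b * (24 * N p) := by ring
            _ ≤ 4 ^ b * (24 * X) := Nat.mul_le_mul_left _ (by omega)
        refine lt_of_le_of_lt h4 ?_
        calc 4 ^ b * (24 * X) < 4 ^ b * 4 ^ (4 * b) := Nat.mul_lt_mul_of_pos_left hX2 hA
          _ = (4 ^ b) ^ 5 := by rw [← pow_mul, ← pow_add]; congr 1; ring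
      refine le_trans (card_le_card ?_) (hCF (4 ^ b) (S p) (2 * z + 1) hA hs1 hlt)
      intro q hq
      rw [mem_filter, mem_filter] at hq
      have hm := hmem q hq.1.1
      obtain ⟨-, -, -, hdvd⟩ := hS q hq.1
      rw [hq.2] at hdvd
      rw [mem_filter, mem_range]
      exact ⟨by omega, hm.2.2.1, lt_of_le_of_lt hz hm.1, hdvd⟩
    refine (card_le_mul_card_image _ 4 hfib).trans ?_
    refine Nat.mul_le_mul_left 4 ?_
    rw [sE]
    refine card_le_card ?_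
    intro s hs
    rw [mem_image] at hs
    obtain ⟨p, hp, rfl⟩ := hs
    rw [mem_filter] at hp
    obtain ⟨-, hs2, hs3, -⟩ := hS p hp
    rw [mem_filter, mem_range]
    refine ⟨?_, hs3⟩
    have h3 := hNX p hp.1
    have h4 : 4 ^ b * N p ≤ 4 ^ b * X := Nat.mul_le_mul_left _ (by omega)
    omega
  rw [hsplit]
  exact Nat.add_le_add h1 h2

end Pool.Agent.EP
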